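import Pool.Agent.H7.HD.Targets6

/-!
# MP_e37c09_lc, module QE: definable cardinalities and surjections
-/

set_option autoImplicit false

open Ordinal Cardinal Order Set
open scoped ZFSet

universe u

namespace Pool.Agent.H14.HD.QE

open _root_.HD

/-- the function `G` of the variables has a definable graph -/
def DF (G : (ℕ → Ordinal.{u}) → Ordinal.{u}) : Prop :=
  DO fun w => w 0 = G (fun n => w (n + 1))

theorem DF.sub {G : (ℕ → Ordinal.{u}) → Ordinal.{u}} (hG : DF G)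
    {P : Ordinal.{u} → (ℕ → Ordinal.{u}) → Prop}
    (hP : DO fun w => P (w 0) (fun n => w (n + 1))) : DO fun w => P (G w) w :=
  (DO.ex (R := fun x w => x = G w ∧ P x w) (hG.and hP)).congr fun w => by simp

theorem DF.sinf {A : Ordinal.{u} → (ℕ → Ordinal.{u}) → Prop}
    (hA : DO fun w => A (w 0) (fun n => w (n + 1))) : DF fun w => sInf {s | A s w} := by
  have h1 : DO fun w : ℕ → Ordinal.{u} => ∀ s < w 0, ¬ A s (fun n => w (n + 1)) := by
    refine DO.allLt (R := fun s w => ¬ A s (fun n => w (n + 1))) 0 ?_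
    exact (hA.ren fun n => if n = 0 then 0 else n + 1).not
  have h2 : DO fun w : ℕ → Ordinal.{u} => ∀ s, ¬ A s (fun n => w (n + 1)) := by
    refine DO.all (R := fun s w => ¬ A s (fun n => w (n + 1))) ?_
    exact (hA.ren fun n => if n = 0 then 0 else n + 1).not
  refine (((hA.and h1).or ((DO.eqc 0 0).and h2))).congr fun w => ?_
  generalize (fun n => w (n + 1)) = v
  generalize w 0 = t
  show t = sInf {s | A s v} ↔ _
  constructor
  · intro h
    by_cases hne : {s | A s v}.Nonempty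
    · left
      have hm : t ∈ {s | A s v} := by
        rw [h]
        exact csInf_mem hne
      refine ⟨hm, fun s hs hAs => ?_⟩
      rw [h] at hs
      exact not_lt_of_ge (csInf_le' (s := {s | A s v}) hAs) hs
    · right
      have he : {s | A s v} = ∅ := Set.not_nonempty_iff_eq_empty.1 hne
      refine ⟨?_, fun s hs => ?_⟩
      · rw [h, he, Ordinal.sInf_empty]
      · exact hne ⟨s, hs⟩
  · rintro (⟨h3, h4⟩ | ⟨h3, h4⟩)
    · refine le_antisymm ?_ (csInf_le' (s := {s | A s v}) h3)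
      exact le_csInf ⟨t, h3⟩ fun s hs => not_lt.1 fun hlt => h4 s hlt hs
    · have he : {s | A s v} = ∅ := by
        ext s
        simp only [mem_ofPred_eq, mem_empty_iff_false, iff_false]
        exact h4 s
      rw [he, Ordinal.sInf_empty, h3]

section

variable (en : Ordinal.{u} → ZFSet.{u})

/-- the relation with code `c` gives a map of `t` onto `b` -/
def Sj0 (c t b : Ordinal.{u}) : Prop :=
  ∀ z < b, ∃ x < t, z ∈ E2 en c x ∧ ∀ z' < z, z' ∉ E2 en c x

noncomputable def qq (b : Ordinal.{u}) : Ordinal.{u} := sInf {t | ∃ c, Sj0 en c t b}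

noncomputable def cd (b : Ordinal.{u}) : Ordinal.{u} := sInf {c | Sj0 en c (qq en b) b}

noncomputable def ev (c x : Ordinal.{u}) : Ordinal.{u} := sInf {s | s ∈ E2 en c x}

open Classical in
noncomputable def ee (b x : Ordinal.{u}) : Ordinal.{u} :=
  if ev en (cd en b) x < b then ev en (cd en b) x else 0

noncomputable def mm (b z : Ordinal.{u}) : Ordinal.{u} :=
  sInf {x | x < qq en b ∧ ee en b x = z}

variable {en}

theorem do_Sj0 (hE2 : DO fun w => w 0 ∈ E2 en (w 2) (w 1)) :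
    DO fun w => Sj0 en (w 0) (w 1) (w 2) := by
  have hX : ∀ i j k : ℕ, DO fun w : ℕ → Ordinal.{u} => w i ∈ E2 en (w k) (w j) := fun i j k =>
    DO.s3 (X := fun z x c => z ∈ E2 en c x) hE2 i j k
  refine DO.allLt (R := fun z w => ∃ x < w 1, z ∈ E2 en (w 0) x ∧
    ∀ z' < z, z' ∉ E2 en (w 0) x) 2 ?_
  refine DO.exLt (R := fun x w => w 0 ∈ E2 en (w 1) x ∧ ∀ z' < w 0, z' ∉ E2 en (w 1) x) 2 ?_
  refine (hX 1 0 2).and ?_
  refine DO.allLt (R := fun z' w => z' ∉ E2 en (w 2) (w 0)) 1 ?_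
  exact (hX 0 1 3).not

theorem df_q (hS : DO fun w => Sj0 en (w 0) (w 1) (w 2)) : DF fun w => qq en (w 0) := by
  refine DF.sinf (A := fun t w => ∃ c, Sj0 en c t (w 0)) ?_
  exact DO.ex (R := fun c w => Sj0 en c (w 0) (w 1)) hS

theorem df_cd (hS : DO fun w => Sj0 en (w 0) (w 1) (w 2)) : DF fun w => cd en (w 0) := by
  have hq := df_q hS
  refine DF.sinf (A := fun c w => Sj0 en c (qq en (w 0)) (w 0)) ?_
  have h1 : DF fun w => qq en (w 1) := DO.s2 (X := fun t b => t = qq en b) hq 0 2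
  exact DF.sub (P := fun t w => Sj0 en (w 0) t (w 1)) h1
    (DO.s3 (X := fun c t b => Sj0 en c t b) hS 1 0 2)

theorem df_ev (hE2 : DO fun w => w 0 ∈ E2 en (w 2) (w 1)) : DF fun w => ev en (w 0) (w 1) := by
  refine DF.sinf (A := fun s w => s ∈ E2 en (w 0) (w 1)) ?_
  exact DO.s3 (X := fun z x c => z ∈ E2 en c x) hE2 0 2 1

theorem do_e (hE2 : DO fun w => w 0 ∈ E2 en (w 2) (w 1)) :
    DO fun w => w 2 = ee en (w 0) (w 1) := by
  have hcd := df_cd (do_Sj0 hE2)
  have hev := df_ev hE2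
  -- y = ev (w 0) (w 1), b = w 2, value w 3
  have h1 : DO fun w : ℕ → Ordinal.{u} => (w 0 < w 1 ∧ w 3 = w 0) ∨ (¬ w 0 < w 1 ∧ w 3 = 0) :=
    ((DO.lt 0 1).and (DO.eq 3 0)).or ((DO.lt 0 1).not.and (DO.eqc 3 0))
  have hev1 : DF fun w : ℕ → Ordinal.{u} => ev en (w 3) (w 1) :=
    DO.s3 (X := fun y c x => y = ev en c x) hev 0 4 2
  have h2 : DO fun w : ℕ → Ordinal.{u} => (ev en (w 3) (w 1) < w 0 ∧ w 2 = ev en (w 3) (w 1)) ∨
      (¬ ev en (w 3) (w 1) < w 0 ∧ w 2 = 0) :=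
    DF.sub (P := fun y w => (y < w 0 ∧ w 2 = y) ∨ (¬ y < w 0 ∧ w 2 = 0)) hev1 h1
  have hcd1 : DF fun w : ℕ → Ordinal.{u} => cd en (w 0) := hcd
  have h3 : DO fun w : ℕ → Ordinal.{u} => (ev en (w 0) (w 2) < w 1 ∧ w 3 = ev en (w 0) (w 2)) ∨
      (¬ ev en (w 0) (w 2) < w 1 ∧ w 3 = 0) :=
    DO.s4 (X := fun b x y c => (ev en c x < b ∧ y = ev en c x) ∨ (¬ ev en c x < b ∧ y = 0))
      h2 1 2 3 0
  refine (DF.sub (P := fun c w => (ev en c (w 1) < w 0 ∧ w 2 = ev en c (w 1)) ∨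
    (¬ ev en c (w 1) < w 0 ∧ w 2 = 0)) hcd1 h3).congr fun w => ?_
  unfold ee
  by_cases h : ev en (cd en (w 0)) (w 1) < w 0
  · simp [h]
  · simp [h]

theorem do_m (hE2 : DO fun w => w 0 ∈ E2 en (w 2) (w 1)) :
    DO fun w => w 2 = mm en (w 0) (w 1) := by
  have hq := df_q (do_Sj0 hE2)
  have he := do_e hE2
  have h1 : DF fun w => mm en (w 0) (w 1) := by
    refine DF.sinf (A := fun x w => x < qq en (w 0) ∧ ee en (w 0) x = w 1) ?_
    refine DO.and ?_ ?_
    · have hq1 : DF fun w => qq en (w 1) := DO.s2 (X := fun t b => t = qq en b) hq 0 2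
      exact DF.sub (P := fun t w => w 0 < t) hq1 (DO.lt 1 0)
    · refine (DO.s3 (X := fun b x z => z = ee en b x) he 1 0 2).congr fun w => ?_
      exact eq_comm
  exact DO.s3 (X := fun y b z => y = mm en b z) h1 2 0 1

end

theorem qe : T_QE.{u} := by
  obtain ⟨en, hen⟩ := All.en.{u}
  obtain ⟨hE, hE2, hS, hR2⟩ := All.ea en hen
  have hSj := do_Sj0 hE2
  -- the set in the definition of `qq` contains `b`
  have hb : ∀ b, ∃ c, Sj0 en c b b := by
    intro b
    obtain ⟨c, hc⟩ := hR2 (fun a z => z = a) (DO.eq 1 0) b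
    refine ⟨c, fun z hz => ⟨z, hz, (hc z z).2 ⟨hz, hz, rfl⟩, fun z' hz' hm => ?_⟩⟩
    exact absurd ((hc z z').1 hm).2.2 hz'.ne
  have hql : ∀ b, qq en b ≤ b := fun b => csInf_le' (hb b)
  have hqm : ∀ b, ∃ c, Sj0 en c (qq en b) b := fun b => csInf_mem (s := {t | ∃ c, Sj0 en c t b}) ⟨b, hb b⟩
  have hcd : ∀ b, Sj0 en (cd en b) (qq en b) b := fun b => by
    obtain ⟨c, hc⟩ := hqm b
    exact csInf_mem (s := {c | Sj0 en c (qq en b) b}) ⟨c, hc⟩
  have hel : ∀ b x, x < qq en b → ee en b x < b := by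
    intro b x hx
    unfold ee
    split_ifs with h
    · exact h
    · exact lt_of_le_of_lt (zero_le) (lt_of_lt_of_le hx (hql b))
  have hsur : ∀ b z, z < b → ∃ x, x < qq en b ∧ ee en b x = z := by
    intro b z hz
    obtain ⟨x, hx, h1, h2⟩ := hcd b z hz
    refine ⟨x, hx, ?_⟩
    have h3 : ev en (cd en b) x = z := by
      unfold ev
      refine le_antisymm (csInf_le' h1) ?_
      exact le_csInf ⟨z, h1⟩ fun s hs => not_lt.1 fun hlt => h2 s hlt hs
    unfold ee
    rw [h3, if_pos hz]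
  have hmm : ∀ b z, z < b → mm en b z < qq en b ∧ ee en b (mm en b z) = z := by
    intro b z hz
    obtain ⟨x, hx⟩ := hsur b z hz
    exact csInf_mem (s := {x | x < qq en b ∧ ee en b x = z}) ⟨x, hx⟩
  refine ⟨qq en, ee en, mm en, ⟨⟨hql, hel, fun b z hz => (hmm b z hz).1,
    fun b z hz => (hmm b z hz).2⟩, ?_, do_e hE2, do_m hE2, ?_⟩⟩
  · exact DO.s2 (X := fun t b => t = qq en b) (df_q hSj) 1 0
  · intro b t' ht' hon
    obtain ⟨f, hf, hfun, hfs⟩ := hon
    have hR : DR fun a z => ∃ x : Ordinal.{u}, ZFSet.pair a.toZFSet x.toZFSet ∈ f ∧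
        z = ee en b x := by
      refine DO.ex (R := fun x w => ZFSet.pair (w 0).toZFSet x.toZFSet ∈ f ∧
        w 1 = ee en b x) ?_
      refine DO.and ?_ ?_
      · exact DO.s2 (X := fun a x => ZFSet.pair a.toZFSet x.toZFSet ∈ f) hf.od.dr 1 0
      · refine DO.sub (R := fun b w => w 2 = ee en b (w 0)) b ?_
        exact DO.s3 (X := fun b x y => y = ee en b x) (do_e hE2) 0 1 3
    obtain ⟨c, hc⟩ := hR2 _ hR b
    have hSc : Sj0 en c t' b := by
      intro z hz
      obtain ⟨hx1, hx2⟩ := hmm b z hz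
      obtain ⟨a, ha, hpa⟩ := hfs (mm en b z) hx1
      have hab : a < b := ha.trans (ht'.trans_le (hql b))
      refine ⟨a, ha, (hc a z).2 ⟨hab, hz, mm en b z, hpa, hx2.symm⟩, fun z' hz' hm => ?_⟩
      obtain ⟨_, _, x', hx', hz'e⟩ := (hc a z').1 hm
      have huniq := (hfun.2 a.toZFSet (toZFSet_mem_toZFSet_iff.2 ha)).unique hpa hx'
      have hxx : mm en b z = x' := toZFSet_injective huniq
      rw [hz'e, ← hxx, hx2] at hz'
      exact lt_irrefl _ hz'
    exact not_lt_of_ge (csInf_le' (s := {t | ∃ c, Sj0 en c t b}) ⟨c, hSc⟩) ht'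

end Pool.Agent.H14.HD.QE
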