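import Pool.Agent.H7.HD.Targets6

/-!
# MP_e37c09_lc, module QK
-/

set_option autoImplicit false

open Ordinal Cardinal Order Set
open scoped ZFSet

universe u

namespace Pool.Agent.H14.HD.QK

open _root_.HD

theorem qk : T_QK.{u} := by
  intro q e m h K lam b hKb hb
  refine ⟨?_, (h.em.ql b).trans_lt hb, h.card b⟩
  have h1 : b.card ≤ (q b).card := by
    have hs : Function.Surjective (fun x : Iio (q b) => (⟨e b x.1, h.em.el b x.1 x.2⟩ : Iio b)) := by
      rintro ⟨z, hz⟩
      exact ⟨⟨m b z, h.em.ml b z hz⟩, Subtype.ext (h.em.em b z hz)⟩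
    have h2 := Cardinal.mk_le_of_surjective hs
    rwa [Cardinal.mk_Iio_ordinal, Cardinal.mk_Iio_ordinal, Cardinal.lift_le] at h2
  rw [Cardinal.ord_le] at hKb ⊢
  exact hKb.trans h1

end Pool.Agent.H14.HD.QK
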