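import Pool.Agent.H14.HD.VU

/-!
# MP_e37c09_lc, module TY
-/

set_option autoImplicit false

open Ordinal Cardinal Order Set
open scoped ZFSet

universe u

namespace Pool.Agent.H14.HD.TY

open _root_.HD Pool.Agent.H14.HD.VU

/-- the predecessor -/
noncomputable def pd (x : Ordinal.{u}) : Ordinal.{u} := sInf {b | x ≤ succ b}

theorem pd_le (x : Ordinal.{u}) : pd x ≤ x := csInf_le' (le_succ x)

theorem pd_succ (b : Ordinal.{u}) : pd (succ b) = b := by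
  unfold pd
  have h : {c : Ordinal.{u} | succ b ≤ succ c} = Ici b := by
    ext c
    simp
  rw [h, csInf_Ici]

theorem ty (hVL : T_VL.{u}) (hVU : T_VU.{u}) (hVK : T_VK.{u}) (hCP : T_CP.{u}) (hOL : T_OL.{u})
    (hNC : T_NC.{u}) (hCI : T_CI.{u}) : T_TY.{u} := by
  intro en N M K lam c d x h f n p s r hf hn hpi hpos
  have hK0 := Tw.k0 h
  have hKc : ℵ₀ < K.ord.cof := by
    rw [h.kreg.cof_ord]
    exact hK0
  have hp1 := pos_diff All.va hKc hpos (hVL en N M K lam c d x h f n hf hn)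
  have hp2 := pos_diff All.va hKc hp1 (hVU en N M K lam c d x h f n hf hn)
  have hp3 := pos_diff All.va hKc hp2 (hVK en N M K lam c d x h f n hf hn)
  obtain ⟨C1, hC1, c1⟩ := hCP K lam f h.kreg hK0 hf (fun a _ => p a)
    (fun a ha _ _ => (hpi.pa a).trans_lt ha)
  obtain ⟨C2, hC2, c2⟩ := hCP K lam f h.kreg hK0 hf (fun a i => s a i)
    (fun a ha i _ => (hpi.sa a i).trans_lt ha)
  obtain ⟨C3, hC3, c3⟩ := hCP K lam f h.kreg hK0 hf (fun a z => r a z)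
    (fun a ha z _ => (hpi.ra a z).trans_lt ha)
  obtain ⟨C4, hC4, c4⟩ := hCP K lam f h.kreg hK0 hf (fun a _ => pd a)
    (fun a ha _ _ => (pd_le a).trans_lt ha)
  obtain ⟨C5, hC5, c5⟩ := hOL K lam f h.kreg hK0 hf
  obtain ⟨C6, hC6, c6⟩ := hNC K lam f n h.kreg hK0 h.kl.le hf hn
  have hC := hCI K.ord _ _ hKc (hCI K.ord _ _ hKc (hCI K.ord _ _ hKc hC1 hC2)
    (hCI K.ord _ _ hKc hC3 hC4)) (hCI K.ord _ _ hKc hC5 hC6)
  obtain ⟨γ, hγK, ⟨⟨⟨g1, g2⟩, g3, g4⟩, g5, g6⟩, ⟨⟨⟨⟨hγc, hnot⟩, hvl⟩, hvu⟩, hvk⟩, hcf⟩ := hp3 _ hC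
  obtain ⟨hcM, hlim⟩ := cfM h.mreg hcf
  have c1 := c1 γ g1 hγK
  have c2 := c2 γ g2 hγK
  have c3 := c3 γ g3 hγK
  have c4 := c4 γ g4 hγK
  have c5 := c5 γ g5 hγK
  obtain ⟨c6a, c6b, c6c⟩ := c6 γ g6 hγK hlim
  have hNγ : N < γ.cof := by
    rw [hcM]
    exact h.nm
  refine hnot ⟨⟨⟨c6a, ?_, ?_, ?_, ?_, ?_⟩, c6b, c6c, ?_, ?_⟩, ?_⟩
  · intro y hy h1 h2
    refine c5 y (by rw [hy]; exact h.nreg.aleph0_le) (by rw [hy]; exact hNγ) h1 h2
  · intro b hb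
    have h1 := c4 _ hb _ hb
    have h2 : pd (succ b) ∈ f '' Iio γ := h1
    rwa [pd_succ] at h2
  · intro a ha _
    exact c1 a ha a ha
  · intro a ha _ i hi _
    exact c2 a ha i hi
  · intro a ha _ z hz _
    exact c3 a ha z hz
  · intro a ha hKa hra z hz hza
    by_contra hcon
    exact hvl ⟨hγc, a, ha, hKa, hra, z, hz, hza, not_lt.1 hcon⟩
  · intro a ha hKa hra y hy
    by_contra hcon
    push Not at hcon
    exact hvu ⟨hγc, a, ha, hKa, hra, y, hy, hcon⟩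
  · intro a ha hKa hra
    by_contra hcon
    exact hvk ⟨hγc, a, ha, hKa, hra, not_lt.1 hcon⟩

end Pool.Agent.H14.HD.TY
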