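import Pool.Agent.H7.HD.Targets7

/-!
# MP_e37c09_lc, module VU
-/

set_option autoImplicit false

open Ordinal Cardinal Order Set
open scoped ZFSet

universe u

namespace Pool.Agent.H14.HD.VU

open _root_.HD

theorem Tw.lamcof {en : Ordinal.{u} → ZFSet.{u}} {N M K : Cardinal.{u}} {lam c d : Ordinal.{u}}
    {x : Ordinal.{u} → Ordinal.{u} → Prop} (h : Tw en N M K lam c d x) : lam.cof = K :=
  h.rc lam h.kl.le le_rfl h.reg

theorem Tw.k0 {en : Ordinal.{u} → ZFSet.{u}} {N M K : Cardinal.{u}} {lam c d : Ordinal.{u}}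
    {x : Ordinal.{u} → Ordinal.{u} → Prop} (h : Tw en N M K lam c d x) : ℵ₀ < K :=
  (h.nreg.aleph0_le.trans_lt h.nm).trans h.mK

/-- an ordinal of the cofinality of a regular cardinal is a limit -/
theorem cfM {M : Cardinal.{u}} (hM : M.IsRegular) {γ : Ordinal.{u}} (h : Cf M.ord γ) :
    γ.cof = M ∧ IsSuccLimit γ := by
  have h1 : γ.cof = M := Cardinal.ord_injective h
  refine ⟨h1, ?_⟩
  rw [← Ordinal.one_lt_cof_iff, h1]
  exact Cardinal.one_lt_aleph0.trans_le hM.aleph0_le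

/-- closedness of a typical set -/
theorem cls {N : Cardinal.{u}} (hN : N.IsRegular) {γ ν : Ordinal.{u}} {X : Set Ordinal.{u}}
    (hc : N < γ.cof)
    (h1 : ∀ x, ℵ₀ ≤ x.cof → x.cof < γ.cof →
      (∀ y < x, ∃ z ∈ X, y < z ∧ z < x) → (∃ z ∈ X, x ≤ z) → x ∈ X)
    (h2 : ∀ y < ν, ∃ z ∈ X, y < z) :
    ∀ x < ν, x.cof = N → (∀ y < x, ∃ z ∈ X, y < z ∧ z < x) → x ∈ X := by
  intro x hx hxN h
  refine h1 x (by rw [hxN]; exact hN.aleph0_le) (by rw [hxN]; exact hc) h ?_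
  obtain ⟨z, hz, hxz⟩ := h2 x hx
  exact ⟨z, hz, hxz.le⟩

theorem vu (hTR : T_TR.{u}) (hGX : T_GX.{u}) (hCP : T_CP.{u}) (hOL : T_OL.{u}) (hNC : T_NC.{u})
    (hCI : T_CI.{u}) (hMI : T_MI.{u}) : T_VU.{u} := by
  intro en N M K lam c d x h f n hf hn hpos
  have hK0 := Tw.k0 h
  have hlc := Tw.lamcof h
  have hN0 := h.nreg.aleph0_le
  have hKc : ℵ₀ < K.ord.cof := by
    rw [h.kreg.cof_ord]
    exact hK0
  obtain ⟨gx1, -, gx3⟩ := hGX x
  obtain ⟨tr1, tr2⟩ := hTR K M lam n h.kreg hK0 h.mreg hn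
  -- the bad points are null at almost all points
  have hbad : ¬ Pos M.ord K.ord
      {γ | n γ ∈ {β | Pos N.ord β {z | z ∈ E en d ∧ os lam {i | x z i} ∉ PkHOD K.ord lam}}} := by
    rw [← tr1]
    refine All.wa N.ord M.ord lam ?_ _ h.fam.small
    rw [hlc]
    exact hK0
  have hpos2 := pos_diff All.va hKc hpos hbad
  obtain ⟨C1, hC1, c1⟩ := hCP K lam f h.kreg hK0 hf (fun a z => gx x a z)
    (fun a ha z hz => (gx1 a z).trans_lt ha)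
  obtain ⟨C2, hC2, c2⟩ := hOL K lam f h.kreg hK0 hf
  obtain ⟨C3, hC3, c3⟩ := hNC K lam f n h.kreg hK0 h.kl.le hf hn
  have hC := hCI K.ord _ _ hKc (hCI K.ord _ _ hKc hC1 hC2) hC3
  obtain ⟨γ, hγK, ⟨⟨hγ1, hγ2⟩, hγ3⟩, ⟨⟨-, a, haX, hKa, hra, y, hy, hyX⟩, hnb⟩, hcf⟩ := hpos2 _ hC
  obtain ⟨hcM, hlim⟩ := cfM h.mreg hcf
  have c1 := c1 γ hγ1 hγK
  have c2 := c2 γ hγ2 hγK
  obtain ⟨c3a, c3b, c3c⟩ := c3 γ hγ3 hγK hlim
  have hnc : (n γ).cof = M := (tr2 γ hγK hlim).trans hcM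
  have hNγ : N < γ.cof := by
    rw [hcM]
    exact h.nm
  have hcl := cls h.nreg hNγ c2 c3c
  have hun : ∀ y < n γ, ∃ z ∈ f '' Iio γ, y < z ∧ z < n γ := by
    intro y hy
    obtain ⟨z, hz, hyz⟩ := c3c y hy
    exact ⟨z, hz, hyz, c3b z hz⟩
  obtain ⟨m1, -⟩ := hMI N (n γ) (f '' Iio γ) (f '' Iio γ) h.nreg (by rw [hnc]; exact h.nm)
    hcl hcl hun hun
  have halam : a < lam := by
    obtain ⟨i, hi, rfl⟩ := haX
    exact hf.lt i (lt_trans hi hγK)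
  refine absurd hy (not_lt.2 ?_)
  refine csInf_le' ?_
  show ¬ Pos N.ord (n γ) {z | z ∈ E en d ∧ y ≤ gx x a z}
  have hn0 : ℵ₀ < (n γ).cof := by
    rw [hnc]
    exact hN0.trans_lt h.nm
  intro hP
  refine null_union All.va hn0 m1 (show ¬ Pos N.ord (n γ)
    {z | z ∈ E en d ∧ os lam {i | x z i} ∉ PkHOD K.ord lam} from hnb) ?_
  refine hP.mono fun z hz hzz _ => ?_
  obtain ⟨hzd, hyz⟩ := hzz
  by_cases hzX : z ∈ f '' Iio γ
  · right
    refine ⟨hzd, fun hsm => ?_⟩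
    have h1 := gx3 K.ord lam a z hKa halam.le hra hsm
    have h2 := c1 a haX z hzX
    exact absurd (hyX _ h2 h1) (not_lt.2 hyz)
  · exact Or.inl hzX

end Pool.Agent.H14.HD.VU
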